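import Pool.Agent.Lib.MP_ce3b04_lc.Stmt
import Pool.Agent.Lib.MP_ce3b04_lc.CompleteG
import Pool.Agent.Lib.MP_ce3b04_lc.Hier.Run
import Pool.Agent.Lib.MP_ce3b04_lc.Hier.Parse
import Pool.Agent.Lib.MP_ce3b04_lc.Hier.Code
import Pool.Agent.Lib.MP_ce3b04_lc.Hier.Red
import Pool.Agent.Lib.MP_ce3b04_lc.Up.GSem
import Pool.Agent.Lib.MP_ce3b04_lc.Up.GPT
import Pool.Agent.Lib.MP_ce3b04_lc.Up.GSolve
import Pool.Agent.Lib.MP_ce3b04_lc.Up.InstP

/-!
# Deciding strong sequentiality of orthogonal term rewriting systems is EXPTIME-complete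

The language `SSOrth` consists of the codes of the strongly sequential orthogonal term rewriting
systems; for `SSOrthG` only terms without variables are considered.

* The codes of the orthogonal systems are recognized in polynomial time.
* `SSOrth` is decided in time `2 ^ p(n)`, for a polynomial `p`.
* Every language that is decided in time `2 ^ p(n)` is reduced to `SSOrth`, in polynomial time and
  with values that are orthogonal systems.
* `SSOrth` is not decided in polynomial time.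
* `SSOrth` is hard for NP, and it is NP-complete if and only if NP = EXPTIME.

All this holds for `SSOrthG`, too. The definitions are in `Pool.Agent.Lib.MP_ce3b04_lc.Raw` and
`Pool.Agent.Lib.MP_ce3b04_lc.Stmt`; `InNP` is in `Pool.Agent.Lib.CookLevin.NP`.
-/

namespace Pool.Agent.Results.MP_ce3b04_lc.ExpTimeComplete

open Turing Pool.Agent.Lib.MP_ce3b04_lc Stmt Pool.Agent.Lib.CookLevin

theorem result :
    Function.Injective Rules.code ∧ InP Orth ∧ InEXP SSOrth ∧ InEXP SSOrthG ∧
    (∀ (Γ : Type) [Fintype Γ] (L : Set (List Γ)), InEXP L →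
      ∃ f : List Γ → Rules,
        Nonempty (TM2ComputableInPolyTime (id : List Γ → List Γ) Rules.code f) ∧
        ∀ x, (f x).Orthogonal ∧ (x ∈ L ↔ (f x).StronglySequential) ∧
          (x ∈ L ↔ (f x).StronglySequentialG)) ∧
    ¬ InP SSOrth ∧ ¬ InP SSOrthG ∧
    (∀ (Γ : Type) [Fintype Γ] (L : Set (List Γ)), InNP L →
      Stmt.PolyReducible L SSOrth ∧ Stmt.PolyReducible L SSOrthG) ∧
    (Stmt.NPComplete SSOrth ↔ ∀ (Γ : Type) [Fintype Γ] (L : Set (List Γ)), InNP L ↔ InEXP L) ∧
    (Stmt.NPComplete SSOrthG ↔ ∀ (Γ : Type) [Fintype Γ] (L : Set (List Γ)), InNP L ↔ InEXP L) :=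
  have hG : InEXP SSOrthG := Up.stInEXPG Up.stSemG Up.stPTsolveG
  have hD := Hier.stNotInP Hier.stDiagEXP Hier.stCode Hier.stParseT
  ⟨Rules.code_injective, Up.inP_orth, inEXP_SSOrth, hG, fun _ _ L hL => exp_hard L hL,
    not_inP_SSOrth hD Hier.stPred, not_inP_SSOrthG hD Hier.stPred,
    fun Γ _ L hL => ⟨np_reducible hL, exp_reducibleG (Up.stNPEXP Up.stTMPT Γ L hL)⟩,
    npComplete_iff, npComplete_iff_of hG fun _ _ _ hL => exp_reducibleG hL⟩

end Pool.Agent.Results.MP_ce3b04_lc.ExpTimeComplete
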